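import Pool.Agent.Helper64.D71.UDefs

/-!
# MP_d71e86_ag : algebraic independence of the coordinates `B` and `(y,p,q)`
-/

open MvPolynomial

universe u

namespace Helper50.D71

section AlgInd

variable (k : Type u) [Field k]

/-- coordinates `(y,p,q)` -/
noncomputable def tP : Fin 3 → KK k := ![y k, P0 k / (fb k * z1 k), s k / fb k]

variable {k}

/-- a quotient of two elements of `A`. -/
def IsFrac (A : Subalgebra k (KK k)) (x : KK k) : Prop :=
  ∃ a ∈ A, ∃ b ∈ A, b ≠ 0 ∧ x = a / b

namespace IsFrac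

variable {A : Subalgebra k (KK k)} {x y : KK k}

lemma of_mem (h : x ∈ A) : IsFrac A x := ⟨x, h, 1, one_mem _, one_ne_zero, by simp⟩

lemma algebraMap (r : k) : IsFrac A (algebraMap k (KK k) r) := of_mem (A.algebraMap_mem r)

lemma one : IsFrac A (1 : KK k) := of_mem (one_mem _)

lemma add (hx : IsFrac A x) (hy : IsFrac A y) : IsFrac A (x + y) := by
  obtain ⟨a, ha, b, hb, hb0, rfl⟩ := hx
  obtain ⟨c, hc, d, hd, hd0, rfl⟩ := hy
  exact ⟨a * d + b * c, add_mem (mul_mem ha hd) (mul_mem hb hc), b * d, mul_mem hb hd,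
    mul_ne_zero hb0 hd0, div_add_div a c hb0 hd0⟩

lemma mul (hx : IsFrac A x) (hy : IsFrac A y) : IsFrac A (x * y) := by
  obtain ⟨a, ha, b, hb, hb0, rfl⟩ := hx
  obtain ⟨c, hc, d, hd, hd0, rfl⟩ := hy
  exact ⟨a * c, mul_mem ha hc, b * d, mul_mem hb hd, mul_ne_zero hb0 hd0, div_mul_div_comm a b c d⟩

lemma neg (hx : IsFrac A x) : IsFrac A (-x) := by
  obtain ⟨a, ha, b, hb, hb0, rfl⟩ := hx
  exact ⟨-a, neg_mem ha, b, hb, hb0, (neg_div b a).symm⟩

lemma sub (hx : IsFrac A x) (hy : IsFrac A y) : IsFrac A (x - y) := by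
  rw [sub_eq_add_neg]; exact hx.add hy.neg

lemma pow (hx : IsFrac A x) (n : ℕ) : IsFrac A (x ^ n) := by
  induction n with
  | zero => simpa using one
  | succ n ih => rw [pow_succ]; exact ih.mul hx

lemma inv (hx : IsFrac A x) : IsFrac A x⁻¹ := by
  obtain ⟨a, ha, b, hb, hb0, rfl⟩ := hx
  by_cases h : a = 0
  · subst h; simpa using of_mem (zero_mem A)
  · exact ⟨b, hb, a, ha, h, inv_div a b⟩

lemma div (hx : IsFrac A x) (hy : IsFrac A y) : IsFrac A (x / y) := by
  rw [div_eq_mul_inv]; exact hx.mul hy.inv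

lemma isAlgebraic (hx : IsFrac A x) : IsAlgebraic A x := by
  obtain ⟨a, ha, b, hb, hb0, rfl⟩ := hx
  have h1 : IsAlgebraic A a := isAlgebraic_algebraMap (⟨a, ha⟩ : A)
  have h2 : IsAlgebraic A b := isAlgebraic_algebraMap (⟨b, hb⟩ : A)
  rw [div_eq_mul_inv]
  exact h1.mul (IsAlgebraic.inv_iff.mpr h2)

end IsFrac

lemma algebraicIndependent_tW : AlgebraicIndependent k (tW k) := by
  rw [algebraicIndependent_iff_injective_aeval]
  have : (aeval (tW k) : MvPolynomial (Fin 3) k →ₐ[k] KK k) =
      IsScalarTower.toAlgHom k (MvPolynomial (Fin 3) k) (KK k) := by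
    apply MvPolynomial.algHom_ext
    intro i
    fin_cases i <;> simp [tW, s, y, v]
  rw [this]
  exact IsFractionRing.injective (MvPolynomial (Fin 3) k) (KK k)

lemma isFrac_all {A : Subalgebra k (KK k)} (hs : IsFrac A (s k)) (hy : IsFrac A (y k))
    (hv : IsFrac A (v k)) (x : KK k) : IsFrac A x := by
  have hpol : ∀ f : MvPolynomial (Fin 3) k,
      IsFrac A (algebraMap (MvPolynomial (Fin 3) k) (KK k) f) := by
    intro f
    rw [← aeval_syv]
    induction f using MvPolynomial.induction_on with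
    | C a => simpa using IsFrac.algebraMap a
    | add p q hp hq => simpa using hp.add hq
    | mul_X p i hp =>
      rw [map_mul, aeval_X]
      refine hp.mul ?_
      fin_cases i
      · simpa using hs
      · simpa using hy
      · simpa using hv
  obtain ⟨a, b, hb, rfl⟩ := IsFractionRing.div_surjective (A := MvPolynomial (Fin 3) k) x
  exact (hpol a).div (hpol b)

lemma trdeg_KK : Algebra.trdeg k (KK k) = 3 := by
  have hA : ∀ x : KK k, IsFrac (Algebra.adjoin k (Set.range (tW k))) x :=
    isFrac_all (IsFrac.of_mem (Algebra.subset_adjoin ⟨0, by simp [tW]⟩))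
      (IsFrac.of_mem (Algebra.subset_adjoin ⟨1, by simp [tW]⟩))
      (IsFrac.of_mem (Algebra.subset_adjoin ⟨2, by simp [tW]⟩))
  have halg : Algebra.IsAlgebraic (Algebra.adjoin k (Set.range (tW k))) (KK k) :=
    ⟨fun x => (hA x).isAlgebraic⟩
  have hb : IsTranscendenceBasis k (tW k) :=
    (algebraicIndependent_tW.isTranscendenceBasis_iff_isAlgebraic).mpr halg
  have := hb.lift_cardinalMk_eq_trdeg
  simpa using this.symm

/-- a birational coordinate system is algebraically independent. -/
lemma algebraicIndependent_of_isFrac (t : Fin 3 → KK k)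
    (hs : IsFrac (Algebra.adjoin k (Set.range t)) (s k))
    (hy : IsFrac (Algebra.adjoin k (Set.range t)) (y k))
    (hv : IsFrac (Algebra.adjoin k (Set.range t)) (v k)) : AlgebraicIndependent k t := by
  have halg : Algebra.IsAlgebraic (Algebra.adjoin k (Set.range t)) (KK k) :=
    ⟨fun x => (isFrac_all hs hy hv x).isAlgebraic⟩
  have := Algebra.IsAlgebraic.isTranscendenceBasis_of_lift_le_trdeg_of_finite k t
    (by rw [trdeg_KK]; simp)
  exact this.1

/-- `v` in the coordinates `(y,p,q)`. -/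
lemma v_eq_ypq : v k = -(-(P0 k / (fb k * z1 k)) - y k ^ 2 * (s k / fb k)) * fb k *
    (1 - fb k * (s k / fb k) ^ 2) /
    (1 + (s k) ^ 2 * (-(P0 k / (fb k * z1 k)) - y k ^ 2 * (s k / fb k))) := by
  have hf := fb_ne k
  have h1 := z1_ne k
  have hF := F_ne k
  have hb : -(P0 k / (fb k * z1 k)) - y k ^ 2 * (s k / fb k) = v k / z1 k := by
    field_simp
    simp only [P0, z0, z1, F, fb]
    ring
  have hN : 1 + s k ^ 2 * (v k / z1 k) = -(F k) / z1 k := by
    field_simp
    simp only [z1]
    ring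
  have hFh : fb k * (1 - fb k * (s k / fb k) ^ 2) = F k := by
    field_simp
    simp only [F]
  rw [hb, hN, mul_assoc, hFh]
  field_simp

lemma algebraicIndependent_tP : AlgebraicIndependent k (tP k) := by
  have hy : IsFrac (Algebra.adjoin k (Set.range (tP k))) (y k) :=
    IsFrac.of_mem (Algebra.subset_adjoin ⟨0, by simp [tP]⟩)
  have hp : IsFrac (Algebra.adjoin k (Set.range (tP k))) (P0 k / (fb k * z1 k)) :=
    IsFrac.of_mem (Algebra.subset_adjoin ⟨1, by simp [tP]⟩)
  have hq : IsFrac (Algebra.adjoin k (Set.range (tP k))) (s k / fb k) :=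
    IsFrac.of_mem (Algebra.subset_adjoin ⟨2, by simp [tP]⟩)
  have hf : IsFrac (Algebra.adjoin k (Set.range (tP k))) (fb k) :=
    (hy.pow 3).sub IsFrac.one
  have hs : IsFrac (Algebra.adjoin k (Set.range (tP k))) (s k) := by
    have : s k = s k / fb k * fb k := by
      have := fb_ne k
      field_simp
    rw [this]
    exact hq.mul hf
  refine algebraicIndependent_of_isFrac _ hs hy ?_
  rw [v_eq_ypq]
  have hb := hp.neg.sub ((hy.pow 2).mul hq)
  exact ((hb.neg.mul hf).mul (IsFrac.one.sub (hf.mul (hq.pow 2)))).div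
    (IsFrac.one.add ((hs.pow 2).mul hb))

lemma algebraicIndependent_tB : AlgebraicIndependent k (tB k) := by
  have h1 : IsFrac (Algebra.adjoin k (Set.range (tB k))) (y k * s k * z1 k / P0 k) :=
    IsFrac.of_mem (Algebra.subset_adjoin ⟨0, by simp [tB]⟩)
  have h2 : IsFrac (Algebra.adjoin k (Set.range (tB k))) (s k * z1 k / P0 k) :=
    IsFrac.of_mem (Algebra.subset_adjoin ⟨1, by simp [tB]⟩)
  have h3 : IsFrac (Algebra.adjoin k (Set.range (tB k))) (P0 k ^ 2 / (s k * fb k * z1 k ^ 2)) :=
    IsFrac.of_mem (Algebra.subset_adjoin ⟨2, by simp [tB]⟩)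
  have hf0 := fb_ne k
  have hz0 := z1_ne k
  have hP0 := P0_ne k
  have hs0 := s_ne k
  have hy : IsFrac (Algebra.adjoin k (Set.range (tB k))) (y k) := by
    have : y k = (y k * s k * z1 k / P0 k) / (s k * z1 k / P0 k) := by field_simp
    rw [this]
    exact h1.div h2
  have hp : IsFrac (Algebra.adjoin k (Set.range (tB k))) (P0 k / (fb k * z1 k)) := by
    have : P0 k / (fb k * z1 k) = (s k * z1 k / P0 k) * (P0 k ^ 2 / (s k * fb k * z1 k ^ 2)) := by
      field_simp
    rw [this]
    exact h2.mul h3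
  have hq : IsFrac (Algebra.adjoin k (Set.range (tB k))) (s k / fb k) := by
    have : s k / fb k = (s k * z1 k / P0 k) ^ 2 * (P0 k ^ 2 / (s k * fb k * z1 k ^ 2)) := by
      field_simp
    rw [this]
    exact (h2.pow 2).mul h3
  have hf : IsFrac (Algebra.adjoin k (Set.range (tB k))) (fb k) :=
    (hy.pow 3).sub IsFrac.one
  have hs : IsFrac (Algebra.adjoin k (Set.range (tB k))) (s k) := by
    have : s k = s k / fb k * fb k := by field_simp
    rw [this]
    exact hq.mul hf
  refine algebraicIndependent_of_isFrac _ hs hy ?_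
  rw [v_eq_ypq]
  have hb := hp.neg.sub ((hy.pow 2).mul hq)
  exact ((hb.neg.mul hf).mul (IsFrac.one.sub (hf.mul (hq.pow 2)))).div
    (IsFrac.one.add ((hs.pow 2).mul hb))

lemma aeval_tP_injective : Function.Injective (aeval (tP k) : MvPolynomial (Fin 3) k → KK k) :=
  algebraicIndependent_iff_injective_aeval.mp algebraicIndependent_tP

lemma aeval_tB_injective : Function.Injective (aeval (tB k) : MvPolynomial (Fin 3) k → KK k) :=
  algebraicIndependent_iff_injective_aeval.mp algebraicIndependent_tB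

lemma aeval_tW_injective : Function.Injective (aeval (tW k) : MvPolynomial (Fin 3) k → KK k) :=
  algebraicIndependent_iff_injective_aeval.mp algebraicIndependent_tW

end AlgInd

end Helper50.D71
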