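import Pool.Agent.Helper48.D71.KeyA3

/-!
# MP_d71e86_ag, block D1a : steps 1-5 (`key_a1`)
-/

open MvPolynomial

universe u

namespace Helper50.D71

section KeyA1

variable {k : Type u} [Field k]

/-! ### `N` is prime -/

/-- `k[y,p,q] = k[y,q][p]` -/
noncomputable def eP : MvPolynomial (Fin 3) k ≃ₐ[k] Polynomial (MvPolynomial (Fin 2) k) :=
  (renameEquiv k (Equiv.swap (0 : Fin 3) 1)).trans (finSuccEquiv k 2)

lemma eP_zero : eP (k := k) (X 0) = Polynomial.C (X 0) := by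
  have h1 : (renameEquiv k (Equiv.swap (0 : Fin 3) 1)) (X 0) = X 1 := by
    simp [renameEquiv_apply]
  have h2 : (1 : Fin 3) = Fin.succ 0 := rfl
  rw [eP, AlgEquiv.trans_apply, h1, h2, finSuccEquiv_X_succ]

lemma eP_one : eP (k := k) (X 1) = Polynomial.X := by
  have h1 : (renameEquiv k (Equiv.swap (0 : Fin 3) 1)) (X 1) = X 0 := by
    simp [renameEquiv_apply]
  rw [eP, AlgEquiv.trans_apply, h1, finSuccEquiv_X_zero]

lemma eP_two : eP (k := k) (X 2) = Polynomial.C (X 1) := by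
  have h1 : (renameEquiv k (Equiv.swap (0 : Fin 3) 1)) (X 2) = X 2 := by
    simp only [renameEquiv_apply, rename_X]
    congr 1
  have h2 : (2 : Fin 3) = Fin.succ 1 := rfl
  rw [eP, AlgEquiv.trans_apply, h1, h2, finSuccEquiv_X_succ]

lemma prime_N1 : Prime (N1 k) := by
  rw [← MulEquiv.prime_iff (eP (k := k))]
  set f : MvPolynomial (Fin 2) k := X 0 ^ 3 - 1 with hf
  have e : eP (N1 k) = Polynomial.C (-(f ^ 2 * X 1 ^ 2)) * Polynomial.X +
      Polynomial.C (1 + -(f ^ 2 * X 1 ^ 2) * (X 0 ^ 2 * X 1)) := by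
    simp only [N1, f1, b1, map_add, map_one, map_mul, map_pow, map_sub, map_neg, eP_zero,
      eP_one, eP_two, hf]
    ring
  rw [e]
  have hf0 : f ≠ 0 := by
    intro h0
    have := congrArg (eval ![0, 0]) h0
    simp [hf] at this
  have ha : -(f ^ 2 * (X 1 : MvPolynomial (Fin 2) k) ^ 2) ≠ 0 :=
    neg_ne_zero.mpr (mul_ne_zero (pow_ne_zero _ hf0) (pow_ne_zero _ (X_ne_zero _)))
  refine (Polynomial.irreducible_C_mul_X_add_C ha ?_).prime
  intro d hd1 hd2
  have h1 : d ∣ 1 := by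
    have := (dvd_add_left (hd1.mul_right (X 0 ^ 2 * X 1))).mp hd2
    exact this
  exact isUnit_of_dvd_one h1

/-! ### `N` does not divide `g1` -/

variable (k) in
/-- the hypersurface `N = 0` -/
noncomputable def kapN : MvPolynomial (Fin 3) k →ₐ[k] LL k :=
  aeval ![yL k, 1 / sL k ^ 2 - yL k ^ 2 * (sL k / (yL k ^ 3 - 1)), sL k / (yL k ^ 3 - 1)]

lemma sL_ne : sL k ≠ 0 := by
  intro h
  have := iota_injective (k := k) (a₁ := X 0) (a₂ := 0) (by simpa [sL] using h)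
  exact X_ne_zero (R := k) (0 : Fin 2) this

lemma Fs_ne : Fs k ≠ 0 := by
  intro h0
  have := congrArg (eval ![0, 0]) h0
  simp [Fs] at this

lemma FL_ne : yL k ^ 3 - 1 - sL k ^ 2 ≠ 0 := by
  intro h
  have := iota_injective (k := k) (a₁ := Fs k) (a₂ := 0) (by simpa [sL, yL, Fs] using h)
  exact Fs_ne this

lemma kapN_f1 : kapN k (f1 k) = yL k ^ 3 - 1 := by
  simp [kapN, f1]

lemma kapN_X2 : kapN k (X 2) = sL k / (yL k ^ 3 - 1) := by
  simp [kapN]

lemma kapN_b1 : kapN k (b1 k) = -1 / sL k ^ 2 := by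
  have h1 := sL_ne (k := k)
  have h2 := fL_ne (k := k)
  simp only [kapN, b1, map_sub, map_neg, map_mul, map_pow, aeval_X, Matrix.cons_val_zero,
    Matrix.cons_val_one, Matrix.cons_val]
  field_simp
  ring

lemma kapN_N1 : kapN k (N1 k) = 0 := by
  have h1 := sL_ne (k := k)
  have h2 := fL_ne (k := k)
  simp only [N1, map_add, map_one, map_mul, map_pow, kapN_f1, kapN_b1, kapN_X2]
  field_simp
  ring

lemma kapN_v : kapN k (-(b1 k * f1 k * Fh1 k)) ≠ 0 := by
  have h1 := sL_ne (k := k)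
  have h2 := fL_ne (k := k)
  have h3 := FL_ne (k := k)
  have h4 : kapN k (Fh1 k) = (yL k ^ 3 - 1 - sL k ^ 2) / (yL k ^ 3 - 1) := by
    simp only [Fh1, map_sub, map_one, map_mul, map_pow, kapN_f1, kapN_X2]
    field_simp
  rw [map_neg, map_mul, map_mul, kapN_b1, kapN_f1, h4, neg_ne_zero]
  refine mul_ne_zero (mul_ne_zero (div_ne_zero (by simp) (pow_ne_zero _ h1)) h2)
    (div_ne_zero h3 h2)

/-- leading coefficient in `v` -/
noncomputable def lcv (β : ℕ) (G : MvPolynomial (Fin 3) k) : MvPolynomial (Fin 2) k :=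
  ∑ m ∈ G.support with m 2 = β,
    monomial (Finsupp.single 0 (m 0) + Finsupp.single 1 (m 1)) (coeff m G)

lemma lcv_ne {G : MvPolynomial (Fin 3) k} (hG : G ≠ 0) : lcv (degreeOf 2 G) G ≠ 0 := by
  classical
  obtain ⟨m, hm, hm2⟩ : ∃ m ∈ G.support, m 2 = degreeOf 2 G := by
    rw [degreeOf_eq_sup]
    obtain ⟨m, hm, h⟩ := Finset.exists_mem_eq_sup G.support (support_nonempty.mpr hG)
      (fun m => m 2)
    exact ⟨m, hm, h.symm⟩
  intro h0
  have h1 := congrArg (coeff (Finsupp.single 0 (m 0) + Finsupp.single 1 (m 1))) h0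
  rw [lcv, coeff_sum, coeff_zero, Finset.sum_eq_single m] at h1
  · rw [coeff_monomial, if_pos rfl] at h1
    exact (mem_support_iff.mp hm) h1
  · intro m' hm' hne
    rw [coeff_monomial, if_neg]
    intro he
    apply hne
    have e0 := DFunLike.congr_fun he 0
    have e1 := DFunLike.congr_fun he 1
    simp at e0 e1
    have e2 := (Finset.mem_filter.mp hm').2
    ext i
    fin_cases i
    · exact e0
    · exact e1
    · show m' 2 = m 2
      rw [e2, hm2]
  · intro hn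
    exact absurd (Finset.mem_filter.mpr ⟨hm, hm2⟩) hn

lemma not_N1_dvd {G : MvPolynomial (Fin 3) k} (hG : G ≠ 0) :
    ¬ N1 k ∣ g1 (degreeOf 2 G) G := by
  classical
  rintro ⟨w, hw⟩
  have h1 := congrArg (kapN k) hw
  rw [map_mul, kapN_N1, zero_mul, g1, map_hev3] at h1
  have hx : kapN k (X 2 * f1 k) = sL k := by
    have h2 := fL_ne (k := k)
    rw [map_mul, kapN_X2, kapN_f1]
    field_simp
  have hy : kapN k (X 0) = yL k := by simp [kapN]
  rw [hx, hy, kapN_N1] at h1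
  set V := kapN k (-(b1 k * f1 k * Fh1 k)) with hV
  have e : hev (degreeOf 2 G) G (sL k) (yL k) V 0 =
      V ^ degreeOf 2 G *
        algebraMap (MvPolynomial (Fin 2) k) (LL k) (lcv (degreeOf 2 G) G) := by
    rw [hev, lcv, map_sum, Finset.mul_sum, Finset.sum_filter]
    refine Finset.sum_congr rfl fun m hm => ?_
    have hm2 := monomial_le_degreeOf 2 hm
    split_ifs with h
    · rw [h, Nat.sub_self, pow_zero, mul_one, monomial_eq, Finsupp.prod_add_index',
        Finsupp.prod_single_index, Finsupp.prod_single_index, map_mul, map_mul, map_pow, map_pow]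
      · have eC : algebraMap (MvPolynomial (Fin 2) k) (LL k) (C (coeff m G)) =
            algebraMap k (LL k) (coeff m G) := by
          rw [← algebraMap_eq, ← IsScalarTower.algebraMap_apply]
        rw [eC]
        change algebraMap k (LL k) (coeff m G) * sL k ^ m 0 * yL k ^ m 1 * V ^ degreeOf 2 G =
          V ^ degreeOf 2 G * (algebraMap k (LL k) (coeff m G) * (sL k ^ m 0 * yL k ^ m 1))
        ring
      · simp
      · simp
      · simp
      · intro a b c
        exact pow_add _ _ _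
    · rw [zero_pow (by omega), mul_zero]
  rw [e] at h1
  rcases mul_eq_zero.mp h1 with h2 | h2
  · exact pow_ne_zero _ kapN_v h2
  · exact lcv_ne hG (iota_injective (k := k) (by simpa using h2))

/-! ### passage between `k[s,y,v]` and `k[y,p,q]` -/

lemma hev_one {A : Type*} [CommRing A] [Algebra k A] (β : ℕ) (G : MvPolynomial (Fin 3) k)
    (t : Fin 3 → A) : hev β G (t 0) (t 1) (t 2) 1 = aeval t G := by
  rw [hev]
  conv_rhs => rw [G.as_sum, map_sum]
  refine Finset.sum_congr rfl fun m hm => ?_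
  rw [aeval_monomial, Finsupp.prod_fintype _ _ (by simp), Fin.prod_univ_three, one_pow]
  ring

lemma aP_f1 : aeval (tP k) (f1 k) = fb k := by
  simp [f1, tP, fb]

lemma aP_b1 : aeval (tP k) (b1 k) = v k / z1 k := by
  have hf := fb_ne k
  have h1 := z1_ne k
  simp only [b1, map_sub, map_neg, map_mul, map_pow, aeval_X, tP, Matrix.cons_val_zero,
    Matrix.cons_val_one, Matrix.cons_val]
  field_simp
  simp only [P0, z0, z1, F, fb]
  ring

lemma aP_N1 : aeval (tP k) (N1 k) = -F k / z1 k := by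
  have hf := fb_ne k
  have h1 := z1_ne k
  have h2 : aeval (tP k) (X 2 : MvPolynomial (Fin 3) k) = s k / fb k := by simp [tP]
  simp only [N1, map_add, map_one, map_mul, map_pow, aP_f1, aP_b1, h2]
  field_simp
  simp only [z1]
  ring

lemma aP_fFh : aeval (tP k) (f1 k * Fh1 k) = F k := by
  have hf := fb_ne k
  have h2 : aeval (tP k) (X 2 : MvPolynomial (Fin 3) k) = s k / fb k := by simp [tP]
  simp only [Fh1, map_sub, map_one, map_mul, map_pow, aP_f1, h2]
  field_simp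
  simp only [F]

lemma aP_N1_ne : aeval (tP k) (N1 k) ≠ 0 := by
  rw [aP_N1]
  exact div_ne_zero (neg_ne_zero.mpr (F_ne k)) (z1_ne k)

lemma aP_g1 {β : ℕ} {G : MvPolynomial (Fin 3) k} (hβ : degreeOf 2 G ≤ β) :
    aeval (tP k) (g1 β G) = aeval (tP k) (N1 k) ^ β * aeval (tW k) G := by
  have hf := fb_ne k
  have h1 := z1_ne k
  have e1 : aeval (tP k) (X 2 * f1 k) = tW k 0 := by
    have h2 : aeval (tP k) (X 2 : MvPolynomial (Fin 3) k) = s k / fb k := by simp [tP]
    rw [map_mul, h2, aP_f1]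
    simp only [tW, Matrix.cons_val_zero]
    field_simp
  have e2 : aeval (tP k) (X 0 : MvPolynomial (Fin 3) k) = tW k 1 := by simp [tP, tW]
  have e3 : aeval (tP k) (-(b1 k * f1 k * Fh1 k)) = aeval (tP k) (N1 k) * tW k 2 := by
    rw [mul_assoc, map_neg, map_mul, aP_fFh, aP_b1, aP_N1]
    simp only [tW, Matrix.cons_val]
    field_simp
  rw [g1, map_hev3 (aeval (tP k)), e1, e2, e3, ← hev_one β G (tW k), ← hev_smul3 hβ, mul_one]

lemma clear_P (u : MvPolynomial (Fin 3) k) : ∃ (n : ℕ) (u₀ : MvPolynomial (Fin 3) k),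
    aeval (tW k) u₀ = (fb k * z1 k) ^ n * aeval (tP k) u := by
  have hf := fb_ne k
  have h1 := z1_ne k
  have hmem : ∀ x ∈ Algebra.adjoin k {s k, y k, v k}, ∃ g : MvPolynomial (Fin 3) k,
      aeval (tW k) g = x := by
    intro x hx
    have : Set.range (tW k) = {s k, y k, v k} := by
      ext z
      simp only [tW, Matrix.range_cons, Matrix.range_empty, Set.union_empty, Set.singleton_union,
        Set.mem_insert_iff, Set.mem_singleton_iff]
    rw [← this, Algebra.adjoin_range_eq_range_aeval] at hx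
    exact hx
  have hs : s k ∈ Algebra.adjoin k {s k, y k, v k} := Algebra.subset_adjoin (by simp)
  have hy : y k ∈ Algebra.adjoin k {s k, y k, v k} := Algebra.subset_adjoin (by simp)
  have hv : v k ∈ Algebra.adjoin k {s k, y k, v k} := Algebra.subset_adjoin (by simp)
  have hfb : fb k ∈ Algebra.adjoin k {s k, y k, v k} := sub_mem (pow_mem hy 3) (one_mem _)
  have hF : F k ∈ Algebra.adjoin k {s k, y k, v k} := sub_mem hfb (pow_mem hs 2)
  have hz1 : z1 k ∈ Algebra.adjoin k {s k, y k, v k} :=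
    neg_mem (add_mem (mul_mem (pow_mem hs 2) hv) hF)
  have hz0 : z0 k ∈ Algebra.adjoin k {s k, y k, v k} :=
    sub_mem (neg_mem (mul_mem hs hz1)) (mul_mem hy hv)
  have hP0 : P0 k ∈ Algebra.adjoin k {s k, y k, v k} :=
    add_mem hv (mul_mem (pow_mem hy 2) hz0)
  induction u using MvPolynomial.induction_on with
  | C a => exact ⟨0, C a, by simp⟩
  | add p q hp hq =>
    obtain ⟨n, a, ha⟩ := hp
    obtain ⟨m, b, hb⟩ := hq
    obtain ⟨w, hw⟩ := hmem _ (mul_mem hfb hz1)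
    refine ⟨n + m, w ^ m * a + w ^ n * b, ?_⟩
    simp only [map_add, map_mul, map_pow, ha, hb, hw]
    ring
  | mul_X p i hp =>
    obtain ⟨n, a, ha⟩ := hp
    have hi : ∃ g : MvPolynomial (Fin 3) k,
        aeval (tW k) g = (fb k * z1 k) * tP k i := by
      fin_cases i
      · obtain ⟨w, hw⟩ := hmem _ (mul_mem (mul_mem hfb hz1) hy)
        exact ⟨w, by simpa [tP] using hw⟩
      · obtain ⟨w, hw⟩ := hmem _ hP0
        refine ⟨w, ?_⟩
        rw [hw]
        show P0 k = fb k * z1 k * (P0 k / (fb k * z1 k))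
        field_simp
      · obtain ⟨w, hw⟩ := hmem _ (mul_mem hz1 hs)
        refine ⟨w, ?_⟩
        rw [hw]
        show z1 k * s k = fb k * z1 k * (s k / fb k)
        field_simp
    obtain ⟨g, hg⟩ := hi
    refine ⟨n + 1, a * g, ?_⟩
    rw [map_mul, map_mul, ha, hg, aeval_X]
    ring

/-- a polynomial dividing `D G` and `D P`, with `G`, `P` relatively prime, divides `D`. -/
lemma dvd_of_dvd_mul_of_isRelPrime {R : Type*} [CommRing R] [IsDomain R]
    [UniqueFactorizationMonoid R] {c D G P : R} (hc : c ≠ 0) (hGP : IsRelPrime G P)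
    (h1 : c ∣ D * G) (h2 : c ∣ D * P) : c ∣ D := by
  obtain ⟨c', D', t, hrel, rfl, rfl⟩ := UniqueFactorizationMonoid.exists_reduced_factors c hc D
  have ht : t ≠ 0 := left_ne_zero_of_mul hc
  rw [mul_assoc] at h1 h2
  have h1' := (mul_dvd_mul_iff_left ht).mp h1
  have h2' := (mul_dvd_mul_iff_left ht).mp h2
  have h1'' := hrel.dvd_of_dvd_mul_left h1'
  have h2'' := hrel.dvd_of_dvd_mul_left h2'
  have hu : IsUnit c' := hGP h1'' h2''
  exact mul_dvd_mul_left t hu.dvd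

lemma dvd_of_dvd_pow_mul {R : Type*} [CommRing R] [IsDomain R]
    [UniqueFactorizationMonoid R] {c N x : R} {a : ℕ} (hN : Prime N) (hc : ¬ N ∣ c)
    (h : c ∣ N ^ a * x) : c ∣ x := by
  induction a with
  | zero => simpa using h
  | succ n ih =>
    apply ih
    rw [pow_succ', mul_assoc] at h
    have : IsRelPrime c N := (hN.irreducible.isRelPrime_iff_not_dvd.mpr hc).symm
    exact this.dvd_of_dvd_mul_left h

/-- step 4 -/
lemma dvd_step4 {c g h : MvPolynomial (Fin 3) k} {l : ℕ} {G P : MvPolynomial (Fin 3) k}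
    (hrel : IsRelPrime G P) (hG : G ≠ 0)
    (hcg : aeval (tP k) (c * g) = aeval (tP k) (N1 k) ^ l * aeval (tW k) G)
    (hch : aeval (tP k) (c * h) = aeval (tP k) (N1 k) ^ l * aeval (tW k) P) :
    ∃ a' a : ℕ, c ∣ N1 k ^ a' * (f1 k * Fh1 k) ^ a := by
  have hf := fb_ne k
  have hz := z1_ne k
  have hF := F_ne k
  have hN := aP_N1_ne (k := k)
  obtain ⟨n₁, c₀, hc₀⟩ := clear_P (k := k) c
  obtain ⟨n₂, g₀, hg₀⟩ := clear_P (k := k) g
  obtain ⟨n₃, h₀, hh₀⟩ := clear_P (k := k) h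
  -- polynomials
  obtain ⟨fW, hfW⟩ : ∃ w : MvPolynomial (Fin 3) k, aeval (tW k) w = fb k :=
    ⟨X 1 ^ 3 - 1, by simp [tW, fb]⟩
  obtain ⟨FW, hFW⟩ : ∃ w : MvPolynomial (Fin 3) k, aeval (tW k) w = F k :=
    ⟨X 1 ^ 3 - 1 - X 0 ^ 2, by simp [tW, fb, F]⟩
  obtain ⟨zW, hzW⟩ : ∃ w : MvPolynomial (Fin 3) k, aeval (tW k) w = z1 k :=
    ⟨-(X 0 ^ 2 * X 2 + (X 1 ^ 3 - 1 - X 0 ^ 2)), by simp [tW, fb, F, z1]⟩
  have hNz : aeval (tP k) (N1 k) * z1 k = -F k := by
    rw [aP_N1]; field_simp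
  set D : MvPolynomial (Fin 3) k := (fW * zW) ^ (n₁ + n₂ + n₃) * FW ^ l with hD
  have hc₀0 : c₀ ≠ 0 := by
    rintro rfl
    rw [map_zero] at hc₀
    have h1 : aeval (tP k) c = 0 := by
      rcases mul_eq_zero.mp hc₀.symm with h1 | h1
      · exact absurd h1 (pow_ne_zero _ (mul_ne_zero hf hz))
      · exact h1
    rw [map_mul, h1, zero_mul] at hcg
    rcases mul_eq_zero.mp hcg.symm with h1 | h1
    · exact pow_ne_zero _ hN h1
    · exact hG (aeval_tW_injective (k := k) (by simpa using h1))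
  have d1 : c₀ ∣ D * G := by
    refine ⟨g₀ * zW ^ l * (-1) ^ l * (fW * zW) ^ n₃, ?_⟩
    apply aeval_tW_injective (k := k)
    have e1 : aeval (tP k) c * aeval (tP k) g * z1 k ^ l = (-F k) ^ l * aeval (tW k) G := by
      rw [← map_mul, hcg, ← hNz, mul_pow]
      ring
    have e2 : (-F k) ^ l * (-1) ^ l = F k ^ l := by
      rw [← mul_pow]; ring
    simp only [hD, map_mul, map_pow, map_neg, map_one, hfW, hzW, hFW, hc₀, hg₀]
    calc (fb k * z1 k) ^ (n₁ + n₂ + n₃) * F k ^ l * aeval (tW k) G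
        = (fb k * z1 k) ^ (n₁ + n₂ + n₃) * (-1) ^ l * ((-F k) ^ l * aeval (tW k) G) := by
          rw [← e2]; ring
      _ = _ := by rw [← e1]; ring
  have d2 : c₀ ∣ D * P := by
    refine ⟨h₀ * zW ^ l * (-1) ^ l * (fW * zW) ^ n₂, ?_⟩
    apply aeval_tW_injective (k := k)
    have e1 : aeval (tP k) c * aeval (tP k) h * z1 k ^ l = (-F k) ^ l * aeval (tW k) P := by
      rw [← map_mul, hch, ← hNz, mul_pow]
      ring
    have e2 : (-F k) ^ l * (-1) ^ l = F k ^ l := by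
      rw [← mul_pow]; ring
    simp only [hD, map_mul, map_pow, map_neg, map_one, hfW, hzW, hFW, hc₀, hh₀]
    calc (fb k * z1 k) ^ (n₁ + n₂ + n₃) * F k ^ l * aeval (tW k) P
        = (fb k * z1 k) ^ (n₁ + n₂ + n₃) * (-1) ^ l * ((-F k) ^ l * aeval (tW k) P) := by
          rw [← e2]; ring
      _ = _ := by rw [← e1]; ring
  obtain ⟨r, hr⟩ := dvd_of_dvd_mul_of_isRelPrime hc₀0 hrel d1 d2
  -- back to `k[y,p,q]`
  have hr1 := aP_g1 (k := k) (le_refl (degreeOf 2 r))
  set n₄ := degreeOf 2 r with hn₄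
  refine ⟨n₄ + n₁, 2 * (n₁ + n₂ + n₃) + l, ?_⟩
  have hid : N1 k ^ (n₄ + n₁) * (-(f1 k * (f1 k * Fh1 k))) ^ (n₁ + n₂ + n₃) *
      (f1 k * Fh1 k) ^ l =
      c * (g1 n₄ r * (-(f1 k * (f1 k * Fh1 k))) ^ n₁ * N1 k ^ (n₁ + n₂ + n₃)) := by
    apply aeval_tP_injective (k := k)
    have e1 := congrArg (aeval (tW k)) hr
    simp only [hD, map_mul, map_pow, hfW, hzW, hFW, hc₀] at e1
    have e3 : aeval (tP k) (-(f1 k * (f1 k * Fh1 k))) = -(fb k * F k) := by
      rw [map_neg, map_mul, aP_f1, aP_fFh]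
    have e4 : ∀ n : ℕ, (fb k * z1 k) ^ n * aeval (tP k) (N1 k) ^ n = (-(fb k * F k)) ^ n := by
      intro n
      rw [← mul_pow, mul_assoc, mul_comm (z1 k), hNz]
      ring
    rw [map_mul, map_mul, map_pow, map_pow, map_pow, e3, aP_fFh, map_mul, map_mul, map_mul,
      map_pow, map_pow, hr1, e3]
    calc aeval (tP k) (N1 k) ^ (n₄ + n₁) * (-(fb k * F k)) ^ (n₁ + n₂ + n₃) * F k ^ l
        = aeval (tP k) (N1 k) ^ (n₄ + n₁) * aeval (tP k) (N1 k) ^ (n₁ + n₂ + n₃) *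
          ((fb k * z1 k) ^ (n₁ + n₂ + n₃) * F k ^ l) := by
          rw [← e4 (n₁ + n₂ + n₃)]; ring
      _ = aeval (tP k) (N1 k) ^ (n₄ + n₁) * aeval (tP k) (N1 k) ^ (n₁ + n₂ + n₃) *
          ((fb k * z1 k) ^ n₁ * aeval (tP k) c * aeval (tW k) r) := by rw [e1]
      _ = aeval (tP k) c * (aeval (tP k) (N1 k) ^ n₄ * aeval (tW k) r *
          ((fb k * z1 k) ^ n₁ * aeval (tP k) (N1 k) ^ n₁) *
          aeval (tP k) (N1 k) ^ (n₁ + n₂ + n₃)) := by ring
      _ = _ := by rw [e4 n₁]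
  have hc1 : c ∣ N1 k ^ (n₄ + n₁) * (-(f1 k * (f1 k * Fh1 k))) ^ (n₁ + n₂ + n₃) *
      (f1 k * Fh1 k) ^ l := by
    rw [hid]
    exact dvd_mul_right _ _
  refine hc1.trans ?_
  refine ⟨(-Fh1 k) ^ (n₁ + n₂ + n₃), ?_⟩
  rw [pow_add (f1 k * Fh1 k) (2 * _) l, pow_mul]
  have : ((f1 k * Fh1 k) ^ 2) ^ (n₁ + n₂ + n₃) =
      (-(f1 k * (f1 k * Fh1 k))) ^ (n₁ + n₂ + n₃) * (-Fh1 k) ^ (n₁ + n₂ + n₃) := by
    rw [← mul_pow]
    congr 1
    ring
  rw [this]
  ring

/-- steps 1-5 -/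
theorem key_a1 [IsAlgClosed k] [CharZero k] (φ : KK k)
    (hE : ∃ P G, IsQuot k (tW k) φ P G ∧ G ∉ Ideal.span {X 2, X 1 ^ 3 - 1 - X 0 ^ 2})
    (hR : ∀ ω : k, ω ^ 3 = 1 → ∃ P G, IsQuot k (tW k) φ P G ∧ G ∉ Ideal.span {X 0, X 1 - C ω}) :
    ∃ (G : MvPolynomial (Fin 3) k) (β l a : ℕ) (h g c : MvPolynomial (Fin 3) k),
      G ∉ Ideal.span {(X 2 : MvPolynomial (Fin 3) k), X 1 ^ 3 - 1 - X 0 ^ 2} ∧
      (∀ ω : k, ω ^ 3 = 1 → G ∉ Ideal.span {(X 0 : MvPolynomial (Fin 3) k), X 1 - C ω}) ∧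
      degreeOf 2 G ≤ β ∧ β ≤ l ∧ IsQuot k (tP k) φ h g ∧ IsRelPrime g h ∧ g ≠ 0 ∧
      c * g = N1 k ^ (l - β) * g1 β G ∧ c ∣ g1 β G ∧ c ∣ (f1 k * Fh1 k) ^ a := by
  obtain ⟨P', G', hq, hG'⟩ := hE
  unfold IsQuot at hq
  have hG'0 : G' ≠ 0 := by
    rintro rfl
    exact hG' (zero_mem _)
  obtain ⟨G, P, c', hrel, hcG, hcP⟩ :=
    UniqueFactorizationMonoid.exists_reduced_factors G' hG'0 P'
  have hc'0 : c' ≠ 0 := left_ne_zero_of_mul (hcG ▸ hG'0)
  have hG0 : G ≠ 0 := right_ne_zero_of_mul (hcG ▸ hG'0)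
  have haW : ∀ {u : MvPolynomial (Fin 3) k}, u ≠ 0 → aeval (tW k) u ≠ 0 := by
    intro u hu h0
    exact hu (aeval_tW_injective (k := k) (by simpa using h0))
  have haP : ∀ {u : MvPolynomial (Fin 3) k}, u ≠ 0 → aeval (tP k) u ≠ 0 := by
    intro u hu h0
    exact hu (aeval_tP_injective (k := k) (by simpa using h0))
  have hφ : φ * aeval (tW k) G = aeval (tW k) P := by
    apply mul_left_cancel₀ (haW hc'0)
    rw [← map_mul, hcP, ← hq, ← hcG, map_mul]
    ring
  -- every other fraction has denominator divisible by `G`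
  have hdvd : ∀ P₁ G₁, IsQuot k (tW k) φ P₁ G₁ → G ∣ G₁ := by
    intro P₁ G₁ h1
    unfold IsQuot at h1
    have : G * P₁ = G₁ * P := by
      apply aeval_tW_injective (k := k)
      rw [map_mul, map_mul, ← h1, ← hφ]
      ring
    exact hrel.dvd_of_dvd_mul_right (this ▸ dvd_mul_right G P₁)
  have hGE : G ∉ Ideal.span {(X 2 : MvPolynomial (Fin 3) k), X 1 ^ 3 - 1 - X 0 ^ 2} := by
    intro h1
    apply hG'
    rw [← hcG]
    exact Ideal.mul_mem_left _ _ h1
  have hGR : ∀ ω : k, ω ^ 3 = 1 →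
      G ∉ Ideal.span {(X 0 : MvPolynomial (Fin 3) k), X 1 - C ω} := by
    intro ω hω h1
    obtain ⟨P₁, G₁, h2, h3⟩ := hR ω hω
    obtain ⟨w, hw⟩ := hdvd _ _ h2
    apply h3
    rw [hw]
    exact Ideal.mul_mem_right _ _ h1
  set β := degreeOf 2 G with hβ
  set βP := degreeOf 2 P with hβP
  set l := max β βP with hl
  have hβl : β ≤ l := le_max_left _ _
  have hβPl : βP ≤ l := le_max_right _ _
  have e1 : aeval (tP k) (N1 k ^ (l - β) * g1 β G) =
      aeval (tP k) (N1 k) ^ l * aeval (tW k) G := by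
    rw [map_mul, map_pow, aP_g1 (le_refl _), ← mul_assoc, ← pow_add, Nat.sub_add_cancel hβl]
  have e2 : aeval (tP k) (N1 k ^ (l - βP) * g1 βP P) =
      aeval (tP k) (N1 k) ^ l * aeval (tW k) P := by
    rw [map_mul, map_pow, aP_g1 (le_refl _), ← mul_assoc, ← pow_add, Nat.sub_add_cancel hβPl]
  have hN := aP_N1_ne (k := k)
  have hne : N1 k ^ (l - β) * g1 β G ≠ 0 := by
    intro h0
    rw [h0, map_zero] at e1
    exact mul_ne_zero (pow_ne_zero _ hN) (haW hG0) e1.symm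
  obtain ⟨g, h, c, hrel', hcg, hch⟩ :=
    UniqueFactorizationMonoid.exists_reduced_factors _ hne (N1 k ^ (l - βP) * g1 βP P)
  have hc0 : c ≠ 0 := left_ne_zero_of_mul (hcg ▸ hne)
  have hg0 : g ≠ 0 := right_ne_zero_of_mul (hcg ▸ hne)
  have hquot : IsQuot k (tP k) φ h g := by
    unfold IsQuot
    apply mul_left_cancel₀ (haP hc0)
    calc aeval (tP k) c * (φ * aeval (tP k) g) = φ * aeval (tP k) (c * g) := by
          rw [map_mul]; ring
      _ = aeval (tP k) (N1 k) ^ l * (φ * aeval (tW k) G) := by rw [hcg, e1]; ring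
      _ = aeval (tP k) (c * h) := by rw [hφ, ← e2, hch]
      _ = _ := by rw [map_mul]
  obtain ⟨a', a, hca⟩ := dvd_step4 (l := l) hrel hG0 (by rw [hcg, e1]) (by rw [hch, e2])
  -- `N` does not divide `c`
  have hNc : ¬ N1 k ∣ c := by
    intro hd
    rcases le_total βP β with hle | hle
    · have : l = β := max_eq_left hle
      rw [this, Nat.sub_self, pow_zero, one_mul] at hcg
      exact not_N1_dvd hG0 (hd.trans (hcg ▸ dvd_mul_right c g))
    · have : l = βP := max_eq_right hle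
      rw [this, Nat.sub_self, pow_zero, one_mul] at hch
      by_cases hP0 : P = 0
      · -- then `β = 0`
        have hu : IsUnit G := hrel dvd_rfl (hP0 ▸ dvd_zero G)
        have hβ0 : β = 0 := by
          obtain ⟨r, -, hr⟩ := MvPolynomial.isUnit_iff_eq_C_of_isReduced.mp hu
          rw [hβ, hr, degreeOf_C]
        have hl0 : l = β := by
          rw [this, hβP, hP0, degreeOf_zero, hβ0]
        rw [hl0, Nat.sub_self, pow_zero, one_mul] at hcg
        exact not_N1_dvd hG0 (hd.trans (hcg ▸ dvd_mul_right c g))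
      · exact not_N1_dvd hP0 (hd.trans (hch ▸ dvd_mul_right c h))
  refine ⟨G, β, l, a, h, g, c, hGE, hGR, le_rfl, hβl, hquot, hrel', hg0, hcg, ?_, ?_⟩
  · exact dvd_of_dvd_pow_mul prime_N1 hNc (hcg ▸ dvd_mul_right c g)
  · exact dvd_of_dvd_pow_mul prime_N1 hNc hca

end KeyA1

end Helper50.D71
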