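import Pool.Agent.Helper60.D71.KeyDefs

/-!
# MP_d71e86_ag, block D1a : step 9 (`key_a3`), total degrees in `k[s,y]`
-/

open MvPolynomial

universe u

namespace Helper50.D71

section KeyA3

variable {k : Type u} [Field k]

/-- `hev` commutes with algebra homomorphisms. -/
lemma map_hev3 {A B : Type*} [CommRing A] [Algebra k A] [CommRing B] [Algebra k B]
    (σ : A →ₐ[k] B) (β : ℕ) (G : MvPolynomial (Fin 3) k) (x y v N : A) :
    σ (hev β G x y v N) = hev β G (σ x) (σ y) (σ v) (σ N) := by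
  simp only [hev, map_sum, map_mul, map_pow, AlgHom.commutes]

/-- homogeneity of `hev`. -/
lemma hev_smul3 {A : Type*} [CommRing A] [Algebra k A] {β : ℕ} {G : MvPolynomial (Fin 3) k}
    (hβ : degreeOf 2 G ≤ β) (x y v N t : A) :
    hev β G x y (t * v) (t * N) = t ^ β * hev β G x y v N := by
  simp only [hev, Finset.mul_sum]
  refine Finset.sum_congr rfl fun m hm => ?_
  have h1 : m 2 ≤ β := (monomial_le_degreeOf 2 hm).trans hβ
  have h2 : t ^ β = t ^ m 2 * t ^ (β - m 2) := by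
    rw [← pow_add, Nat.add_sub_cancel' h1]
  rw [h2]
  ring

/-- `k(s,y)` -/
abbrev LL (k : Type u) [Field k] : Type u := FractionRing (MvPolynomial (Fin 2) k)

variable (k) in
/-- `s` in `k(s,y)` -/
noncomputable def sL : LL k := algebraMap (MvPolynomial (Fin 2) k) (LL k) (X 0)

variable (k) in
/-- `y` in `k(s,y)` -/
noncomputable def yL : LL k := algebraMap (MvPolynomial (Fin 2) k) (LL k) (X 1)

variable (k) in
/-- the restriction to `z₀ = 0`. -/
noncomputable def sig : MvPolynomial (Fin 3) k →ₐ[k] LL k :=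
  aeval ![yL k, -(sL k / ((yL k ^ 3 - 1) * yL k)), sL k / (yL k ^ 3 - 1)]

lemma iota_injective : Function.Injective (algebraMap (MvPolynomial (Fin 2) k) (LL k)) :=
  IsFractionRing.injective (MvPolynomial (Fin 2) k) (LL k)

lemma yL_ne : yL k ≠ 0 := by
  intro h
  have := iota_injective (k := k) (a₁ := X 1) (a₂ := 0) (by simpa [yL] using h)
  exact X_ne_zero (R := k) (1 : Fin 2) this

lemma coeff_fL : coeff (Finsupp.single 1 3) ((X 1) ^ 3 - 1 : MvPolynomial (Fin 2) k) = 1 := by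
  classical
  rw [coeff_sub, coeff_X_pow, if_pos rfl, coeff_one, if_neg, sub_zero]
  intro h
  have := DFunLike.congr_fun h 1
  simp at this

lemma fL_ne' : ((X 1) ^ 3 - 1 : MvPolynomial (Fin 2) k) ≠ 0 := by
  intro h
  have := coeff_fL (k := k)
  rw [h] at this
  simp at this

lemma fL_ne : yL k ^ 3 - 1 ≠ 0 := by
  intro h
  have := iota_injective (k := k) (a₁ := (X 1) ^ 3 - 1) (a₂ := 0) (by simpa [yL] using h)
  exact fL_ne' this

lemma sig_f1 : sig k (f1 k) = yL k ^ 3 - 1 := by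
  simp [sig, f1]

lemma sig_b1 : sig k (b1 k) = -(sL k / yL k) := by
  have h1 := yL_ne (k := k)
  have h2 := fL_ne (k := k)
  simp only [sig, b1, map_sub, map_neg, map_mul, map_pow, aeval_X, Matrix.cons_val_zero,
    Matrix.cons_val_one, Matrix.cons_val]
  field_simp
  ring

lemma sig_N1 : sig k (N1 k) = -(sL k ^ 3 - yL k) / yL k := by
  have h1 := yL_ne (k := k)
  have h2 := fL_ne (k := k)
  simp only [N1, map_add, map_one, map_mul, map_pow, sig_f1, sig_b1]
  have : sig k (X 2) = sL k / (yL k ^ 3 - 1) := by simp [sig]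
  rw [this]
  field_simp
  ring

lemma sig_Fh1 : sig k (Fh1 k) = (yL k ^ 3 - 1 - sL k ^ 2) / (yL k ^ 3 - 1) := by
  have h2 := fL_ne (k := k)
  simp only [Fh1, map_sub, map_one, map_mul, map_pow, sig_f1]
  have : sig k (X 2) = sL k / (yL k ^ 3 - 1) := by simp [sig]
  rw [this]
  field_simp

lemma sig_g1 {β : ℕ} {G : MvPolynomial (Fin 3) k} (hβ : degreeOf 2 G ≤ β) :
    sig k (g1 β G) = (-1 / yL k) ^ β * algebraMap (MvPolynomial (Fin 2) k) (LL k) (h0 β G) := by
  have h1 := yL_ne (k := k)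
  have h2 := fL_ne (k := k)
  have e : algebraMap (MvPolynomial (Fin 2) k) (LL k) (h0 β G) =
      hev β G (sL k) (yL k) (-(sL k * (yL k ^ 3 - 1 - sL k ^ 2))) (sL k ^ 3 - yL k) := by
    have := map_hev3 (IsScalarTower.toAlgHom k (MvPolynomial (Fin 2) k) (LL k)) β G
      (X 0) (X 1) (-(X 0 * Fs k)) (X 0 ^ 3 - X 1)
    simp only [IsScalarTower.coe_toAlgHom'] at this
    rw [h0, this]
    simp [sL, yL, Fs]
  rw [e, ← hev_smul3 hβ, g1, map_hev3]
  congr 1
  · have : sig k (X 2) = sL k / (yL k ^ 3 - 1) := by simp [sig]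
    rw [map_mul, this, sig_f1]
    field_simp
  · simp [sig]
  · rw [map_neg, map_mul, map_mul, sig_b1, sig_f1, sig_Fh1]
    field_simp
  · rw [sig_N1]
    ring

/-- `(f y)^M σ(g)` -/
noncomputable def ghat (M : ℕ) (g : MvPolynomial (Fin 3) k) : MvPolynomial (Fin 2) k :=
  ∑ m ∈ g.support, C (coeff m g * (-1) ^ m 1) * (X 0 ^ (m 1 + m 2) *
    (((X 1) ^ 3 - 1) ^ (M - (m 1 + m 2)) * X 1 ^ (M + m 0 - m 1)))

lemma sig_ghat {M : ℕ} {g : MvPolynomial (Fin 3) k} (hM : ∀ m ∈ g.support, m 1 + m 2 ≤ M) :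
    algebraMap (MvPolynomial (Fin 2) k) (LL k) (ghat M g) =
      ((yL k ^ 3 - 1) * yL k) ^ M * sig k g := by
  have h1 := yL_ne (k := k)
  have h2 := fL_ne (k := k)
  rw [ghat, map_sum]
  conv_rhs => rw [g.as_sum, map_sum, Finset.mul_sum]
  refine Finset.sum_congr rfl fun m hm => ?_
  have hm' := hM m hm
  rw [sig, aeval_monomial, Finsupp.prod_fintype _ _ (by simp), Fin.prod_univ_three]
  simp only [Matrix.cons_val_zero, Matrix.cons_val_one, Matrix.cons_val, map_mul, map_pow,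
    map_sub, map_one, map_neg]
  change _ * ((sL k) ^ (m 1 + m 2) * ((yL k ^ 3 - 1) ^ (M - (m 1 + m 2)) *
    (yL k) ^ (M + m 0 - m 1))) = _
  have eC : algebraMap (MvPolynomial (Fin 2) k) (LL k) (C (coeff m g)) =
      algebraMap k (LL k) (coeff m g) := by
    rw [← algebraMap_eq, ← IsScalarTower.algebraMap_apply]
  have eC' : algebraMap (MvPolynomial (Fin 2) k) (LL k) (C (-1)) = -1 := by
    simp
  rw [eC]
  have ef : (yL k ^ 3 - 1) ^ M = (yL k ^ 3 - 1) ^ (m 1) * (yL k ^ 3 - 1) ^ (m 2) *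
      (yL k ^ 3 - 1) ^ (M - (m 1 + m 2)) := by
    rw [← pow_add, ← pow_add]
    congr 1
    omega
  have ey : yL k ^ (M + m 0 - m 1) * yL k ^ (m 1) = yL k ^ M * yL k ^ (m 0) := by
    rw [← pow_add, ← pow_add]
    congr 1
    omega
  rw [mul_pow (yL k ^ 3 - 1) (yL k) M, ef, neg_pow (sL k / ((yL k ^ 3 - 1) * yL k)) (m 1),
    div_pow, div_pow, mul_pow (yL k ^ 3 - 1) (yL k) (m 1)]
  have hy1 : yL k ^ (m 1) ≠ 0 := pow_ne_zero _ h1
  have hf1 : (yL k ^ 3 - 1) ^ (m 1) ≠ 0 := pow_ne_zero _ h2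
  have hf2 : (yL k ^ 3 - 1) ^ (m 2) ≠ 0 := pow_ne_zero _ h2
  field_simp
  rw [show sL k ^ (m 1 + m 2) = sL k ^ m 1 * sL k ^ m 2 from pow_add _ _ _]
  linear_combination (algebraMap k (LL k) (coeff m g) * (sL k ^ m 1 * sL k ^ m 2)) * ey

lemma totalDegree_aeval_X_le (c0 : Polynomial k) :
    (Polynomial.aeval (X 1 : MvPolynomial (Fin 2) k) c0).totalDegree ≤ c0.natDegree := by
  rw [Polynomial.aeval_eq_sum_range]
  refine totalDegree_finsetSum_le fun i hi => ?_
  refine (totalDegree_smul_le _ _).trans ?_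
  rw [totalDegree_X_pow]
  exact Nat.lt_succ_iff.mp (Finset.mem_range.mp hi)

lemma three_le_totalDegree_f :
    3 ≤ ((X 1) ^ 3 - 1 : MvPolynomial (Fin 2) k).totalDegree := by
  have h : Finsupp.single 1 3 ∈ ((X 1) ^ 3 - 1 : MvPolynomial (Fin 2) k).support := by
    rw [mem_support_iff, coeff_fL]
    exact one_ne_zero
  have := le_totalDegree h
  simpa using this

lemma three_le_totalDegree_d :
    (X 0 ^ 3 - X 1 : MvPolynomial (Fin 2) k) ≠ 0 ∧
    3 ≤ (X 0 ^ 3 - X 1 : MvPolynomial (Fin 2) k).totalDegree := by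
  classical
  have hc : coeff (Finsupp.single 0 3) (X 0 ^ 3 - X 1 : MvPolynomial (Fin 2) k) = 1 := by
    rw [coeff_sub, coeff_X_pow, if_pos rfl, coeff_X, if_neg, sub_zero]
    intro h
    have := DFunLike.congr_fun h 1
    simp at this
  have h : Finsupp.single 0 3 ∈ (X 0 ^ 3 - X 1 : MvPolynomial (Fin 2) k).support := by
    rw [mem_support_iff, hc]
    exact one_ne_zero
  have := le_totalDegree h
  refine ⟨?_, by simpa using this⟩
  intro h0
  rw [h0] at hc
  simp at hc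

lemma totalDegree_pow_eq {p : MvPolynomial (Fin 2) k} (hp : p ≠ 0) (n : ℕ) :
    (p ^ n).totalDegree = n * p.totalDegree := by
  induction n with
  | zero => simp
  | succ n ih =>
    rw [pow_succ, totalDegree_mul_of_isDomain (pow_ne_zero _ hp) hp, ih]
    ring

lemma totalDegree_ghat_lt {M : ℕ} {g : MvPolynomial (Fin 3) k} (hg : g ≠ 0)
    (hM : ∀ m ∈ g.support, m 1 + m 2 ≤ M) (h : ∀ m ∈ g.support, m 0 < m 1 + 2 * m 2) :
    (ghat M g).totalDegree < 4 * M := by
  have hM0 : 0 < M := by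
    obtain ⟨m, hm⟩ := support_nonempty.mpr hg
    have h1 := h m hm
    have h2 := hM m hm
    omega
  have : (ghat M g).totalDegree ≤ 4 * M - 1 := by
    rw [ghat]
    refine totalDegree_finsetSum_le fun m hm => ?_
    have h1 := h m hm
    have h2 := hM m hm
    refine (totalDegree_mul _ _).trans ?_
    rw [totalDegree_C, zero_add]
    refine (totalDegree_mul _ _).trans ?_
    rw [totalDegree_X_pow]
    have h3 := totalDegree_mul (((X 1) ^ 3 - 1 : MvPolynomial (Fin 2) k) ^ (M - (m 1 + m 2)))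
      (X 1 ^ (M + m 0 - m 1))
    rw [totalDegree_X_pow] at h3
    have h4 := totalDegree_pow ((X 1) ^ 3 - 1 : MvPolynomial (Fin 2) k) (M - (m 1 + m 2))
    have h5 : ((X 1) ^ 3 - 1 : MvPolynomial (Fin 2) k).totalDegree ≤ 3 := by
      refine (totalDegree_sub _ _).trans ?_
      simp
    have h6 : (M - (m 1 + m 2)) * ((X 1) ^ 3 - 1 : MvPolynomial (Fin 2) k).totalDegree ≤
        (M - (m 1 + m 2)) * 3 := Nat.mul_le_mul_left _ h5
    omega
  omega

/-- step 9 -/
theorem key_a3 (G : MvPolynomial (Fin 3) k) (β l : ℕ) (g : MvPolynomial (Fin 3) k)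
    (c0 : Polynomial k) (_hc0 : c0 ≠ 0) (hβ : degreeOf 2 G ≤ β) (hl : β ≤ l) (hg : g ≠ 0)
    (heq : Polynomial.aeval (X 0) c0 * g = N1 k ^ (l - β) * g1 β G)
    (hh0 : h0 β G ≠ 0) (hdeg : β + c0.natDegree ≤ (h0 β G).totalDegree) :
    ∃ m ∈ g.support, m 1 + 2 * m 2 ≤ m 0 := by
  by_contra hcon
  push Not at hcon
  obtain ⟨M, hM⟩ : ∃ M : ℕ, ∀ m ∈ g.support, m 1 + m 2 ≤ M := by
    refine ⟨g.degreeOf 1 + g.degreeOf 2, fun m hm => ?_⟩
    have h1 := monomial_le_degreeOf 1 hm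
    have h2 := monomial_le_degreeOf 2 hm
    omega
  have hlt := totalDegree_ghat_lt hg hM hcon
  have h1 := yL_ne (k := k)
  have h2 := fL_ne (k := k)
  -- the main identity
  have key : Polynomial.aeval (X 1 : MvPolynomial (Fin 2) k) c0 * (ghat M g * X 1 ^ l) =
      C ((-1) ^ l) * ((((X 1) ^ 3 - 1) ^ M * X 1 ^ M) * ((X 0 ^ 3 - X 1) ^ (l - β) * h0 β G)) := by
    apply iota_injective (k := k)
    have e1 := congrArg (sig k) heq
    rw [map_mul, map_mul, map_pow, sig_N1, sig_g1 hβ] at e1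
    have e2 : sig k (Polynomial.aeval (X 0) c0) =
        algebraMap (MvPolynomial (Fin 2) k) (LL k) (Polynomial.aeval (X 1) c0) := by
      rw [← Polynomial.aeval_algHom_apply]
      have : sig k (X 0) = yL k := by simp [sig]
      rw [this]
      have := Polynomial.aeval_algHom_apply
        (IsScalarTower.toAlgHom k (MvPolynomial (Fin 2) k) (LL k)) (X 1) c0
      simp only [IsScalarTower.coe_toAlgHom'] at this
      rw [← this]
      rfl
    rw [e2] at e1
    simp only [map_mul, map_pow, sig_ghat hM, map_sub, map_one, map_neg]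
    change _ * (((yL k ^ 3 - 1) * yL k) ^ M * sig k g * yL k ^ l) =
      (-1) ^ l * (((yL k ^ 3 - 1) ^ M * yL k ^ M) * ((sL k ^ 3 - yL k) ^ (l - β) * _))
    have e3 : (-(sL k ^ 3 - yL k) / yL k) ^ (l - β) * ((-1 / yL k) ^ β) * yL k ^ l =
        (-1) ^ l * (sL k ^ 3 - yL k) ^ (l - β) := by
      have hl' : l = (l - β) + β := by omega
      have : yL k ^ l = yL k ^ (l - β) * yL k ^ β := by rw [← pow_add, ← hl']
      rw [this]
      have h3 : ((-1 : LL k)) ^ l = (-1) ^ (l - β) * (-1) ^ β := by rw [← pow_add, ← hl']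
      rw [h3, div_pow, div_pow, neg_pow (sL k ^ 3 - yL k)]
      have := pow_ne_zero (l - β) h1
      have := pow_ne_zero β h1
      field_simp
    calc (algebraMap (MvPolynomial (Fin 2) k) (LL k)) ((Polynomial.aeval (X 1)) c0) *
          (((yL k ^ 3 - 1) * yL k) ^ M * sig k g * yL k ^ l)
        = ((yL k ^ 3 - 1) * yL k) ^ M * yL k ^ l *
          ((algebraMap (MvPolynomial (Fin 2) k) (LL k)) ((Polynomial.aeval (X 1)) c0) *
            sig k g) := by ring
      _ = ((yL k ^ 3 - 1) * yL k) ^ M * (((-(sL k ^ 3 - yL k) / yL k) ^ (l - β) *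
          ((-1 / yL k) ^ β) * yL k ^ l)) *
            algebraMap (MvPolynomial (Fin 2) k) (LL k) (h0 β G) := by rw [e1]; ring
      _ = _ := by rw [e3, mul_pow]; ring
  -- total degrees
  obtain ⟨hd0, hd3⟩ := three_le_totalDegree_d (k := k)
  have hf0 := fL_ne' (k := k)
  have hf3 := three_le_totalDegree_f (k := k)
  have hX0 : (X 1 : MvPolynomial (Fin 2) k) ≠ 0 := X_ne_zero _
  have hC0 : (C ((-1) ^ l) : MvPolynomial (Fin 2) k) ≠ 0 := by
    simp
  have r1 : ((X 1) ^ 3 - 1 : MvPolynomial (Fin 2) k) ^ M ≠ 0 := pow_ne_zero _ hf0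
  have r2 : (X 1 : MvPolynomial (Fin 2) k) ^ M ≠ 0 := pow_ne_zero _ hX0
  have r3 : (X 0 ^ 3 - X 1 : MvPolynomial (Fin 2) k) ^ (l - β) ≠ 0 := pow_ne_zero _ hd0
  have hR : (C ((-1) ^ l) : MvPolynomial (Fin 2) k) * ((((X 1) ^ 3 - 1) ^ M * X 1 ^ M) *
      ((X 0 ^ 3 - X 1) ^ (l - β) * h0 β G)) ≠ 0 :=
    mul_ne_zero hC0 (mul_ne_zero (mul_ne_zero r1 r2) (mul_ne_zero r3 hh0))
  have hL := key ▸ hR
  have hL1 := left_ne_zero_of_mul hL
  have hL2 := right_ne_zero_of_mul hL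
  have hL3 := left_ne_zero_of_mul hL2
  have hL4 := right_ne_zero_of_mul hL2
  have d := congrArg totalDegree key
  rw [totalDegree_mul_of_isDomain hL1 hL2, totalDegree_mul_of_isDomain hL3 hL4,
    totalDegree_mul_of_isDomain hC0 (mul_ne_zero (mul_ne_zero r1 r2) (mul_ne_zero r3 hh0)),
    totalDegree_mul_of_isDomain (mul_ne_zero r1 r2) (mul_ne_zero r3 hh0),
    totalDegree_mul_of_isDomain r1 r2, totalDegree_mul_of_isDomain r3 hh0, totalDegree_C,
    totalDegree_pow_eq hf0, totalDegree_pow_eq hX0, totalDegree_pow_eq hd0,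
    totalDegree_pow_eq hX0, totalDegree_X] at d
  have hc := totalDegree_aeval_X_le (k := k) c0
  have m1 : M * 3 ≤ M * ((X 1) ^ 3 - 1 : MvPolynomial (Fin 2) k).totalDegree :=
    Nat.mul_le_mul_left _ hf3
  have m2 : (l - β) * 3 ≤ (l - β) * (X 0 ^ 3 - X 1 : MvPolynomial (Fin 2) k).totalDegree :=
    Nat.mul_le_mul_left _ hd3
  omega

end KeyA3

end Helper50.D71
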