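import Pool.Agent.Helper48.D71.AlgInd

/-!
# MP_d71e86_ag, block D1b : step 6 of the key lemma
-/

open MvPolynomial

universe u

namespace Helper50.D71

section KeyB

variable {k : Type u} [Field k]

/-- exponents of `B₂^M y^a p^b q^c` in the coordinates `B`. -/
noncomputable def EB (M : ℕ) (m : Fin 3 →₀ ℕ) : Fin 3 →₀ ℕ :=
  Finsupp.single 0 (m 0) + Finsupp.single 1 (M + m 1 + 2 * m 2 - m 0) +
    Finsupp.single 2 (m 1 + m 2)

@[simp] lemma EB_zero (M : ℕ) (m : Fin 3 →₀ ℕ) : EB M m 0 = m 0 := by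
  simp [EB]

@[simp] lemma EB_one (M : ℕ) (m : Fin 3 →₀ ℕ) : EB M m 1 = M + m 1 + 2 * m 2 - m 0 := by
  simp [EB]

@[simp] lemma EB_two (M : ℕ) (m : Fin 3 →₀ ℕ) : EB M m 2 = m 1 + m 2 := by
  simp [EB]

lemma EB_inj {M : ℕ} {m m' : Fin 3 →₀ ℕ} (_h : m 0 ≤ M) (_h' : m' 0 ≤ M)
    (he : EB M m = EB M m') : m = m' := by
  have h0 := DFunLike.congr_fun he 0
  have h1 := DFunLike.congr_fun he 1
  have h2 := DFunLike.congr_fun he 2
  simp only [EB_zero, EB_one, EB_two] at h0 h1 h2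
  ext i
  fin_cases i
  · simpa using h0
  · show m 1 = m' 1
    omega
  · show m 2 = m' 2
    omega

/-- `B₂^M u` as a polynomial in the coordinates `B`. -/
noncomputable def Lam (M : ℕ) (u : MvPolynomial (Fin 3) k) : MvPolynomial (Fin 3) k :=
  ∑ m ∈ u.support, monomial (EB M m) (coeff m u)

lemma coeff_Lam (M : ℕ) (u : MvPolynomial (Fin 3) k) (n : Fin 3 →₀ ℕ) :
    coeff n (Lam M u) = ∑ m ∈ u.support, if EB M m = n then coeff m u else 0 := by
  classical
  simp only [Lam, coeff_sum, coeff_monomial]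

lemma coeff_Lam_EB {M : ℕ} {u : MvPolynomial (Fin 3) k} (h : ∀ m ∈ u.support, m 0 ≤ M)
    {m : Fin 3 →₀ ℕ} (hm : m ∈ u.support) : coeff (EB M m) (Lam M u) = coeff m u := by
  classical
  rw [coeff_Lam, Finset.sum_eq_single m]
  · simp
  · intro m' hm' hne
    rw [if_neg]
    intro he
    exact hne (EB_inj (h _ hm') (h _ hm) he)
  · intro hn
    exact absurd hm hn

lemma exists_of_coeff_Lam {M : ℕ} {u : MvPolynomial (Fin 3) k} {n : Fin 3 →₀ ℕ}
    (hn : coeff n (Lam M u) ≠ 0) : ∃ m ∈ u.support, EB M m = n := by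
  classical
  rw [coeff_Lam] at hn
  obtain ⟨m, hm, h⟩ := Finset.exists_ne_zero_of_sum_ne_zero hn
  refine ⟨m, hm, ?_⟩
  by_contra hne
  simp [hne] at h

lemma tB_one_ne : tB k 1 ≠ 0 := by
  have h1 := s_ne k
  have h2 := z1_ne k
  have h3 := P0_ne k
  have : tB k 1 = s k * z1 k / P0 k := by simp [tB]
  rw [this]
  positivity

lemma tP_eq : tP k 0 * tB k 1 = tB k 0 ∧ tP k 1 = tB k 1 * tB k 2 ∧
    tP k 2 = tB k 1 ^ 2 * tB k 2 := by
  have hf0 := fb_ne k
  have hz0 := z1_ne k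
  have hP0 := P0_ne k
  have hs0 := s_ne k
  refine ⟨?_, ?_, ?_⟩
  · simp only [tP, tB, Matrix.cons_val_zero, Matrix.cons_val_one]
    field_simp
  · simp only [tP, tB, Matrix.cons_val_one, Matrix.cons_val]
    field_simp
  · simp only [tP, tB, Matrix.cons_val_one, Matrix.cons_val]
    field_simp

lemma tB_eq : tB k 0 * (tP k 1 * tP k 2) = tP k 0 * tP k 2 ^ 2 ∧
    tB k 1 * (tP k 1 * tP k 2) = tP k 2 ^ 2 ∧
    tB k 2 * (tP k 1 * tP k 2) = tP k 1 ^ 3 := by
  have hf0 := fb_ne k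
  have hz0 := z1_ne k
  have hP0 := P0_ne k
  have hs0 := s_ne k
  refine ⟨?_, ?_, ?_⟩
  · simp only [tP, tB, Matrix.cons_val_zero, Matrix.cons_val_one, Matrix.cons_val]
    field_simp
  · simp only [tP, tB, Matrix.cons_val_one, Matrix.cons_val]
    field_simp
  · simp only [tP, tB, Matrix.cons_val_one, Matrix.cons_val]
    field_simp

lemma aeval_Lam {M : ℕ} {u : MvPolynomial (Fin 3) k} (h : ∀ m ∈ u.support, m 0 ≤ M) :
    aeval (tB k) (Lam M u) = tB k 1 ^ M * aeval (tP k) u := by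
  classical
  obtain ⟨e0, e1, e2⟩ := tP_eq (k := k)
  rw [Lam, map_sum]
  conv_rhs => rw [u.as_sum, map_sum, Finset.mul_sum]
  refine Finset.sum_congr rfl fun m hm => ?_
  rw [aeval_monomial, aeval_monomial]
  rw [Finsupp.prod_fintype _ _ (by simp), Finsupp.prod_fintype _ _ (by simp)]
  rw [Fin.prod_univ_three, Fin.prod_univ_three]
  simp only [EB_zero, EB_one, EB_two]
  have hm0 := h m hm
  have key : tB k 0 ^ m 0 * tB k 1 ^ (M + m 1 + 2 * m 2 - m 0) * tB k 2 ^ (m 1 + m 2) =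
      tB k 1 ^ M * (tP k 0 ^ m 0 * tP k 1 ^ m 1 * tP k 2 ^ m 2) := by
    rw [← e0, e1, e2, mul_pow (tP k 0), mul_assoc (tP k 0 ^ m 0), ← pow_add,
      show m 0 + (M + m 1 + 2 * m 2 - m 0) = M + m 1 + 2 * m 2 by omega]
    ring
  rw [key]
  ring

/-- clearing denominators -/
lemma exists_clear (G : MvPolynomial (Fin 3) k) : ∃ (n : ℕ) (G₁ : MvPolynomial (Fin 3) k),
    aeval (tP k) G₁ = (tP k 1 * tP k 2) ^ n * aeval (tB k) G := by
  obtain ⟨e0, e1, e2⟩ := tB_eq (k := k)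
  induction G using MvPolynomial.induction_on with
  | C a => exact ⟨0, C a, by simp⟩
  | add p q hp hq =>
    obtain ⟨n, a, ha⟩ := hp
    obtain ⟨m, b, hb⟩ := hq
    refine ⟨n + m, (X 1 * X 2) ^ m * a + (X 1 * X 2) ^ n * b, ?_⟩
    simp only [map_add, map_mul, map_pow, aeval_X, ha, hb]
    ring
  | mul_X p i hp =>
    obtain ⟨n, a, ha⟩ := hp
    have hi : ∃ g : MvPolynomial (Fin 3) k,
        aeval (tP k) g = tB k i * (tP k 1 * tP k 2) := by
      fin_cases i
      · exact ⟨X 0 * X 2 ^ 2, by simpa using e0.symm⟩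
      · exact ⟨X 2 ^ 2, by simpa using e1.symm⟩
      · exact ⟨X 1 ^ 3, by simpa using e2.symm⟩
    obtain ⟨g, hg⟩ := hi
    refine ⟨n + 1, a * g, ?_⟩
    rw [map_mul, map_mul, ha, hg, aeval_X]
    ring

lemma pow_cancel {R : Type*} [CommRing R] [IsDomain R] {x y z : R} {a b : ℕ} (hx : x ≠ 0)
    (h : x ^ a * y = x ^ b * z) (hy : ¬ x ∣ y) (hz : ¬ x ∣ z) : a = b ∧ y = z := by
  rcases lt_trichotomy a b with hab | hab | hab
  · exfalso
    obtain ⟨c, rfl⟩ := Nat.exists_eq_add_of_lt hab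
    apply hy
    have : x ^ a * y = x ^ a * (x * (x ^ c * z)) := by rw [h]; ring
    exact ⟨_, mul_left_cancel₀ (pow_ne_zero a hx) this⟩
  · subst hab
    exact ⟨rfl, mul_left_cancel₀ (pow_ne_zero a hx) h⟩
  · exfalso
    obtain ⟨c, rfl⟩ := Nat.exists_eq_add_of_lt hab
    apply hz
    have : x ^ b * z = x ^ b * (x * (x ^ c * y)) := by rw [← h]; ring
    exact ⟨_, mul_left_cancel₀ (pow_ne_zero b hx) this⟩

lemma not_X_dvd_of_constantCoeff {G : MvPolynomial (Fin 3) k} (h : constantCoeff G ≠ 0)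
    (i : Fin 3) : ¬ (X i : MvPolynomial (Fin 3) k) ∣ G := by
  rintro ⟨c, rfl⟩
  simp at h

/-- a divisor of a monomial times a polynomial with nonzero constant coefficient -/
lemma split_monomial {A B G : MvPolynomial (Fin 3) k} {a b : ℕ} (hG : constantCoeff G ≠ 0)
    (hA : A ≠ 0) (hB : B ≠ 0) (h : A * B = X 1 ^ a * (X 2 ^ b * G)) :
    ∃ (e₁ e₂ : ℕ) (A' B' : MvPolynomial (Fin 3) k), A = X 1 ^ e₁ * (X 2 ^ e₂ * A') ∧
      A' * B' = G := by
  have p1 : Prime (X 1 : MvPolynomial (Fin 3) k) := X_prime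
  have p2 : Prime (X 2 : MvPolynomial (Fin 3) k) := X_prime
  obtain ⟨e₁, A₁, hA₁, rfl⟩ := WfDvdMonoid.max_power_factor hA p1.irreducible
  obtain ⟨f₁, B₁, hB₁, rfl⟩ := WfDvdMonoid.max_power_factor hB p1.irreducible
  have hA₁0 : A₁ ≠ 0 := right_ne_zero_of_mul hA
  have hB₁0 : B₁ ≠ 0 := right_ne_zero_of_mul hB
  obtain ⟨e₂, A₂, hA₂, rfl⟩ := WfDvdMonoid.max_power_factor hA₁0 p2.irreducible
  obtain ⟨f₂, B₂, hB₂, rfl⟩ := WfDvdMonoid.max_power_factor hB₁0 p2.irreducible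
  have h1 : (X 1 : MvPolynomial (Fin 3) k) ^ (e₁ + f₁) * ((X 2 ^ e₂ * A₂) * (X 2 ^ f₂ * B₂)) =
      X 1 ^ a * (X 2 ^ b * G) := by rw [← h]; ring
  have hX12 : ¬ (X 1 : MvPolynomial (Fin 3) k) ∣ X 2 := by
    rw [X_dvd_X]
    simp
  have hG1 : ¬ (X 1 : MvPolynomial (Fin 3) k) ∣ X 2 ^ b * G := by
    intro hd
    rcases p1.dvd_or_dvd hd with hd | hd
    · exact hX12 (p1.dvd_of_dvd_pow hd)
    · exact not_X_dvd_of_constantCoeff hG 1 hd
  obtain ⟨-, h2⟩ := pow_cancel p1.ne_zero h1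
    (fun hd => (p1.dvd_or_dvd hd).elim hA₁ hB₁) hG1
  have h3 : (X 2 : MvPolynomial (Fin 3) k) ^ (e₂ + f₂) * (A₂ * B₂) = X 2 ^ b * G := by
    rw [← h2]; ring
  obtain ⟨-, h4⟩ := pow_cancel p2.ne_zero h3
    (fun hd => (p2.dvd_or_dvd hd).elim hA₂ hB₂) (not_X_dvd_of_constantCoeff hG 2)
  exact ⟨e₁, e₂, A₂, B₂, rfl, h4⟩

lemma monomial_form (e₁ e₂ : ℕ) (A : MvPolynomial (Fin 3) k) :
    (X 1 : MvPolynomial (Fin 3) k) ^ e₁ * (X 2 ^ e₂ * A) =
      monomial (Finsupp.single 1 e₁ + Finsupp.single 2 e₂) 1 * A := by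
  rw [← mul_assoc, X_pow_eq_monomial, X_pow_eq_monomial, monomial_mul, one_mul]

variable (k) in
/-- D1b (step 6). -/
theorem key_b (φ : KK k) (h g : MvPolynomial (Fin 3) k) (hg : IsQuot k (tP k) φ h g)
    (hrel : IsRelPrime g h) (hg0 : g ≠ 0) (hW : ∃ m ∈ g.support, m 1 + 2 * m 2 ≤ m 0)
    (hc : ∃ P G, IsQuot k (tB k) φ P G ∧ constantCoeff G ≠ 0 ∧ constantCoeff P = 0) :
    ∃ P G, IsQuot k (tB k) φ P G ∧ constantCoeff G ≠ 0 ∧ P ∈ Ideal.span {X 0, X 1} := by
  classical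
  obtain ⟨P', G', hq, hG', hP'⟩ := hc
  unfold IsQuot at hg hq
  obtain ⟨n, G₁, hG₁⟩ := exists_clear (k := k) G'
  obtain ⟨n', P₁, hP₁⟩ := exists_clear (k := k) P'
  -- `g ∣ (pq)^(n+n') G'`
  have e1 : h * ((X 1 * X 2) ^ n' * G₁) = g * ((X 1 * X 2) ^ n * P₁) := by
    apply aeval_tP_injective (k := k)
    simp only [map_mul, map_pow, aeval_X, hG₁, hP₁, ← hg, ← hq]
    ring
  have hdvd : g ∣ (X 1 * X 2) ^ n' * G₁ :=
    hrel.dvd_of_dvd_mul_left (e1 ▸ dvd_mul_right g _)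
  obtain ⟨w, hw⟩ := hdvd
  have hG'0 : G' ≠ 0 := by
    rintro rfl
    simp at hG'
  have hpq : tP k 1 * tP k 2 ≠ 0 := by
    obtain ⟨-, h1, h2⟩ := tP_eq (k := k)
    have hf0 := fb_ne k
    have hz0 := z1_ne k
    have hP0 := P0_ne k
    have hs0 := s_ne k
    have a1 : tP k 1 = P0 k / (fb k * z1 k) := by simp [tP]
    have a2 : tP k 2 = s k / fb k := by simp [tP]
    rw [a1, a2]
    positivity
  have haG' : aeval (tB k) G' ≠ 0 := by
    intro h0
    exact hG'0 (aeval_tB_injective (k := k) (by simpa using h0))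
  have hw0 : w ≠ 0 := by
    rintro rfl
    rw [mul_zero] at hw
    have := congrArg (aeval (tP k)) hw
    simp only [map_mul, map_pow, aeval_X, hG₁, map_zero] at this
    exact (mul_ne_zero (pow_ne_zero _ hpq) (mul_ne_zero (pow_ne_zero _ hpq) haG')) this
  -- choice of `M`
  obtain ⟨M, hMg, hMw, hMh⟩ : ∃ M : ℕ, (∀ m ∈ g.support, m 0 ≤ M) ∧
      (∀ m ∈ w.support, m 0 ≤ M) ∧ (∀ m ∈ h.support, m 0 ≤ M) := by
    refine ⟨g.degreeOf 0 + w.degreeOf 0 + h.degreeOf 0, ?_, ?_, ?_⟩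
    · intro m hm
      have := monomial_le_degreeOf 0 hm
      omega
    · intro m hm
      have := monomial_le_degreeOf 0 hm
      omega
    · intro m hm
      have := monomial_le_degreeOf 0 hm
      omega
  have hB1 := tB_one_ne (k := k)
  have hLg0 : Lam M g ≠ 0 := by
    intro h0
    have := aeval_Lam (k := k) hMg
    rw [h0, map_zero] at this
    rcases mul_eq_zero.mp this.symm with h1 | h1
    · exact pow_ne_zero _ hB1 h1
    · exact hg0 (aeval_tP_injective (k := k) (by simpa using h1))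
  have hLw0 : Lam M w ≠ 0 := by
    intro h0
    have := aeval_Lam (k := k) hMw
    rw [h0, map_zero] at this
    rcases mul_eq_zero.mp this.symm with h1 | h1
    · exact pow_ne_zero _ hB1 h1
    · exact hw0 (aeval_tP_injective (k := k) (by simpa using h1))
  obtain ⟨t0, t1, t2⟩ := tP_eq (k := k)
  have e2 : Lam M g * Lam M w =
      X 1 ^ (2 * M + 3 * (n + n')) * (X 2 ^ (2 * (n + n')) * G') := by
    apply aeval_tB_injective (k := k)
    have hw' := congrArg (aeval (tP k)) hw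
    simp only [map_mul, map_pow, aeval_X, hG₁] at hw'
    simp only [map_mul, map_pow, aeval_X, aeval_Lam hMg, aeval_Lam hMw]
    calc tB k 1 ^ M * aeval (tP k) g * (tB k 1 ^ M * aeval (tP k) w)
        = tB k 1 ^ (2 * M) * (aeval (tP k) g * aeval (tP k) w) := by ring
      _ = _ := by
        rw [← hw', t1, t2]
        ring
  obtain ⟨e₁, e₂, A, B, hA, hAB⟩ := split_monomial hG' hLg0 hLw0 e2
  have hcA : constantCoeff A ≠ 0 := by
    intro h0
    rw [← hAB, map_mul, h0, zero_mul] at hG'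
    exact hG' rfl
  have hcB : constantCoeff B ≠ 0 := by
    intro h0
    rw [← hAB, map_mul, h0, mul_zero] at hG'
    exact hG' rfl
  rw [monomial_form] at hA
  -- the exponents
  obtain ⟨m, hm, hm'⟩ : ∃ m ∈ g.support,
      EB M m = Finsupp.single 1 e₁ + Finsupp.single 2 e₂ := by
    apply exists_of_coeff_Lam
    rw [hA]
    have := coeff_monomial_mul (0 : Fin 3 →₀ ℕ) (Finsupp.single 1 e₁ + Finsupp.single 2 e₂) 1 A
    rw [add_zero, one_mul] at this
    rw [this]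
    exact hcA
  have he₁ : e₁ ≤ M := by
    obtain ⟨m', hm'1, hm'2⟩ := hW
    have h1 : coeff (EB M m') (Lam M g) ≠ 0 := by
      rw [coeff_Lam_EB hMg hm'1]
      exact mem_support_iff.mp hm'1
    rw [hA, coeff_monomial_mul'] at h1
    have h2 : Finsupp.single 1 e₁ + Finsupp.single 2 e₂ ≤ EB M m' := by
      by_contra hcon
      rw [if_neg hcon] at h1
      exact h1 rfl
    have h3 := h2 1
    simp only [Finsupp.coe_add, Pi.add_apply, Finsupp.single_eq_same, EB_one] at h3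
    have h4 := hMg m' hm'1
    simp at h3
    omega
  have q0 := DFunLike.congr_fun hm' 0
  have q1 := DFunLike.congr_fun hm' 1
  have q2 := DFunLike.congr_fun hm' 2
  simp at q0 q1 q2
  have hm0 : m 0 = 0 := q0
  have hm12 : m 1 = 0 ∧ m 2 = 0 := by omega
  have he1 : e₁ = M := by omega
  have he2 : e₂ = 0 := by omega
  subst he1
  subst he2
  have hA' : Lam e₁ g = X 1 ^ e₁ * A := by
    rw [hA, ← monomial_form]; simp
  have haA : aeval (tB k) A = aeval (tP k) g := by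
    have := aeval_Lam (k := k) hMg
    rw [hA', map_mul, map_pow, aeval_X] at this
    exact mul_left_cancel₀ (pow_ne_zero _ hB1) this
  -- the numerator
  have e3 : Lam e₁ h * B = X 1 ^ e₁ * P' := by
    have hA0 : A ≠ 0 := by
      rintro rfl
      simp at hcA
    apply mul_left_cancel₀ hA0
    apply aeval_tB_injective (k := k)
    have h1 : aeval (tB k) A * aeval (tB k) B = aeval (tB k) G' := by rw [← hAB, map_mul]
    simp only [map_mul, map_pow, aeval_X, aeval_Lam hMh]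
    calc aeval (tB k) A * (tB k 1 ^ e₁ * aeval (tP k) h * aeval (tB k) B)
        = tB k 1 ^ e₁ * aeval (tP k) h * (aeval (tB k) A * aeval (tB k) B) := by ring
      _ = aeval (tB k) A * (tB k 1 ^ e₁ * aeval (tB k) P') := by
        rw [h1, ← hg, ← hq, haA]
        ring
  have hdvd2 : (X 1 : MvPolynomial (Fin 3) k) ^ e₁ ∣ Lam e₁ h := by
    refine (X_prime : Prime (X 1 : MvPolynomial (Fin 3) k)).pow_dvd_of_dvd_mul_right e₁
      (not_X_dvd_of_constantCoeff hcB 1) ?_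
    rw [e3]
    exact dvd_mul_right _ _
  obtain ⟨H, hH⟩ := hdvd2
  have haH : aeval (tB k) H = aeval (tP k) h := by
    have := aeval_Lam (k := k) hMh
    rw [hH, map_mul, map_pow, aeval_X] at this
    exact mul_left_cancel₀ (pow_ne_zero _ hB1) this
  have hHB : H * B = P' := by
    rw [hH, mul_assoc] at e3
    exact mul_left_cancel₀ (pow_ne_zero _ (X_ne_zero (R := k) (1 : Fin 3))) e3
  have hcH : constantCoeff H = 0 := by
    rw [← hHB, map_mul] at hP'
    exact (mul_eq_zero.mp hP').resolve_right hcB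
  refine ⟨H, A, ?_, hcA, ?_⟩
  · unfold IsQuot
    rw [haA, haH, hg]
  · have hset : ({X 0, X 1} : Set (MvPolynomial (Fin 3) k)) = X '' {0, 1} := by
      rw [Set.image_pair]
    rw [hset, mem_ideal_span_X_image]
    intro r hr
    by_contra hcon
    push Not at hcon
    have r0 : r 0 = 0 := hcon 0 (by simp)
    have r1 : r 1 = 0 := hcon 1 (by simp)
    have hne : coeff (Finsupp.single 1 e₁ + r) (Lam e₁ h) ≠ 0 := by
      rw [hH, X_pow_eq_monomial, coeff_monomial_mul, one_mul]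
      exact mem_support_iff.mp hr
    obtain ⟨m', hm'1, hm'2⟩ := exists_of_coeff_Lam hne
    have s0 := DFunLike.congr_fun hm'2 0
    have s1 := DFunLike.congr_fun hm'2 1
    have s2 := DFunLike.congr_fun hm'2 2
    simp [r0, r1] at s0 s1 s2
    have r2 : r 2 = 0 := by omega
    have hr0 : r = 0 := by
      ext i
      fin_cases i
      · simpa using r0
      · simpa using r1
      · simpa using r2
    rw [hr0] at hr
    exact (mem_support_iff.mp hr) hcH

end KeyB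

end Helper50.D71
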